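import Pool.Agent.Q246.SK.Main

set_option autoImplicit false

/-!
# Spin Kostka polynomials are not always palindromic

`K⁻_{(4,2),(3,2,1)}(t) = 8 + 12 t + 4 t²`, and no `m` satisfies `t^m K⁻(1/t) = K⁻(t)`.

The Hall–Littlewood polynomials `P_μ(x_1, …, x_N; t)` (Macdonald's formula), the Schur `Q`-polynomials
(marked shifted tableaux) and the spin Kostka polynomials (`Q_ξ = ∑_μ K ξ μ P_μ` in every number of
variables) are defined in `Pool.Agent.Q246.SK.Defs`.
-/

namespace Pool.Agent.Results.MP_2c9e21_co.NotPalindromic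

open Polynomial Pool.Agent.Q246.SK

/-- For the spin Kostka polynomials `K` one has `K (4,2) (3,2,1) = 8 + 12 t + 4 t ^ 2`, which is not
palindromic. This already follows from the expansion of `Q_(4,2)` in three variables, and this
expansion exists and is given explicitly. -/
theorem result :
    (∀ K : List ℕ → List ℕ → ℤ[X], IsSpinKostka K →
      K [4, 2] [3, 2, 1] = 8 + 12 * X + 4 * X ^ 2 ∧ ¬ Palindromic (K [4, 2] [3, 2, 1])) ∧
    (∀ k : List ℕ → ℤ[X],
      schurQ [4, 2] 3 = ∑ μ ∈ parts 3 6, c (k (toList μ)) * hallP μ →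
        k [3, 2, 1] = 8 + 12 * X + 4 * X ^ 2) ∧
    ∃ k : List ℕ → ℤ[X], schurQ [4, 2] 3 = ∑ μ ∈ parts 3 6, c (k (toList μ)) * hallP μ := by
  have t6 : toList ![6, 0, 0] = [6] := by decide
  have t51 : toList ![5, 1, 0] = [5, 1] := by decide
  have t42 : toList ![4, 2, 0] = [4, 2] := by decide
  have t411 : toList ![4, 1, 1] = [4, 1, 1] := by decide
  have t33 : toList ![3, 3, 0] = [3, 3] := by decide
  have t321 : toList ![3, 2, 1] = [3, 2, 1] := by decide
  have t222 : toList ![2, 2, 2] = [2, 2, 2] := by decide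
  have main : ∀ k : List ℕ → ℤ[X],
      schurQ [4, 2] 3 = ∑ μ ∈ parts 3 6, c (k (toList μ)) * hallP μ →
        k [3, 2, 1] = 8 + 12 * X + 4 * X ^ 2 := by
    intro k hk
    rw [sum_parts, t6, t51, t42, t411, t33, t321, t222] at hk
    exact (solve hk.symm).2.2.2.2.2
  refine ⟨fun K hK => ?_, main, ?_⟩
  · have h := hK [4, 2] (by simp) (by simp) 3
    have h1 := main (K [4, 2]) h
    rw [h1]
    exact ⟨rfl, not_pal⟩
  · refine ⟨fun l => if l = [4, 2] then 4 else if l = [4, 1, 1] then 4 + 4 * X else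
      if l = [3, 3] then 4 + 4 * X else if l = [3, 2, 1] then 8 + 12 * X + 4 * X ^ 2 else
      if l = [2, 2, 2] then 4 + 8 * X + 12 * X ^ 2 + 12 * X ^ 3 + 4 * X ^ 4 else 0, ?_⟩
    rw [sum_parts, t6, t51, t42, t411, t33, t321, t222, ← exists_exp]
    have z : (c (0 : ℤ[X]) : F 3) = 0 := by rw [c_eq, map_zero]
    simp only [show ([6] : List ℕ) = [4, 2] ↔ False by decide,
      show ([6] : List ℕ) = [4, 1, 1] ↔ False by decide,
      show ([6] : List ℕ) = [3, 3] ↔ False by decide,
      show ([6] : List ℕ) = [3, 2, 1] ↔ False by decide,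
      show ([6] : List ℕ) = [2, 2, 2] ↔ False by decide,
      show ([5, 1] : List ℕ) = [4, 2] ↔ False by decide,
      show ([5, 1] : List ℕ) = [4, 1, 1] ↔ False by decide,
      show ([5, 1] : List ℕ) = [3, 3] ↔ False by decide,
      show ([5, 1] : List ℕ) = [3, 2, 1] ↔ False by decide,
      show ([5, 1] : List ℕ) = [2, 2, 2] ↔ False by decide,
      show ([4, 1, 1] : List ℕ) = [4, 2] ↔ False by decide,
      show ([3, 3] : List ℕ) = [4, 2] ↔ False by decide,
      show ([3, 3] : List ℕ) = [4, 1, 1] ↔ False by decide,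
      show ([3, 2, 1] : List ℕ) = [4, 2] ↔ False by decide,
      show ([3, 2, 1] : List ℕ) = [4, 1, 1] ↔ False by decide,
      show ([3, 2, 1] : List ℕ) = [3, 3] ↔ False by decide,
      show ([2, 2, 2] : List ℕ) = [4, 2] ↔ False by decide,
      show ([2, 2, 2] : List ℕ) = [4, 1, 1] ↔ False by decide,
      show ([2, 2, 2] : List ℕ) = [3, 3] ↔ False by decide,
      show ([2, 2, 2] : List ℕ) = [3, 2, 1] ↔ False by decide, if_true, if_false, z, zero_mul,
      zero_add]
    ring

end Pool.Agent.Results.MP_2c9e21_co.NotPalindromic
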